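import Pool.Agent.Helper15.RA.GoalsK

set_option autoImplicit false

open LaurentPolynomial

noncomputable section

namespace Pool.Agent.Helper36.RA

open Pool.Agent.Helper15.RA

variable {I W V H : Type} [Group W] [Ring H] [Algebra ℤ[T;T⁻¹] H] {X : Ctx I W V H}

theorem lam_of_repr (hSA : ∀ n, X.SA n) (M : ℕ) (k : ℤ) (Z : H)
    (h : ∀ y, DegLE k (X.D.t.repr Z y)) : ∃ n, X.Lam M n k Z := by
  classical
  refine ⟨(X.D.t.repr Z).support.sup X.sl, ?_⟩
  have h1 : Z = ∑ y ∈ (X.D.t.repr Z).support, X.D.t.repr Z y • X.D.t y := by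
    conv_lhs => rw [← X.D.t.linearCombination_repr Z]
    rfl
  rw [h1]
  refine Ctx.Lam.sum fun y hy => ?_
  have h2 : X.Lam M (X.sl y) 0 (X.D.t y) := ((hSA (X.sl y + 1)) M y (Nat.lt_succ_self _)).1.lam
  have h3 : (∑ y ∈ (X.D.t.repr Z).support, X.D.t.repr Z y • X.D.t y) = Z := h1.symm
  exact Ctx.Lam.smul_le (h y) h2 (Finset.le_sup (f := X.sl) (by simpa [h3] using hy))
    (by omega)

theorem lam_c_sub (hSA : ∀ n, X.SA n) (M : ℕ) (z : W) :
    ∃ n, X.Lam M n (-1) (X.D.c z - X.D.t z) :=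
  lam_of_repr hSA M (-1) _ fun y => X.D.c_sub z y

theorem step (h3 : I_3) (h1 : F_1) (hSA : ∀ n, X.SA n) (M : ℕ) (β : W →₀ ℤ[T;T⁻¹])
    (n : ℕ) (k : ℤ) (hZ : X.Lam M n k (β.sum fun z p => p • X.D.c z)) (j : ℤ) (hj : k < j)
    (hb : ∀ z, ¬ X.Ge (M + 1) z → DegLE j (β z)) :
    ∀ z, ¬ X.Ge (M + 1) z → DegLE (j - 1) (β z) := by
  classical
  choose nn hnn using lam_c_sub hSA M
  set γ : W →₀ ℤ[T;T⁻¹] := β.filter fun z => ¬ X.Ge (M + 1) z with hγ
  set δ : W →₀ ℤ[T;T⁻¹] := β.filter fun z => X.Ge (M + 1) z with hδ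
  have hsplit : β = δ + γ := (Finsupp.filter_add_filter_not β _).symm
  have hγv : ∀ z, ¬ X.Ge (M + 1) z → γ z = β z := fun z hz => Finsupp.filter_apply_pos _ _ hz
  have hγn : ∀ z, X.Ge (M + 1) z → γ z = 0 := fun z hz =>
    Finsupp.filter_apply_neg _ _ (fun h => h hz)
  have hδn : ∀ z, ¬ X.Ge (M + 1) z → δ z = 0 := fun z hz => Finsupp.filter_apply_neg _ _ hz
  have hsum : (β.sum fun z p => p • X.D.c z) =
      (δ.sum fun z p => p • X.D.c z) + (γ.sum fun z p => p • X.D.c z) := by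
    conv_lhs => rw [hsplit]
    exact Finsupp.sum_add_index' (fun _ => zero_smul _ _) (fun _ _ _ => add_smul _ _ _)
  -- the terms in the ideal
  have hI : (δ.sum fun z p => p • X.D.c z) ∈ X.Idl M := by
    refine Submodule.sum_mem _ fun z hz => Submodule.smul_mem _ _ ?_
    refine (h1 I W V H X hSA M z ?_).1
    by_contra hn
    exact (Finsupp.mem_support_iff.1 hz) (hδn z hn)
  -- the difference of `c` and `T`
  set Y : H := Finsupp.linearCombination ℤ[T;T⁻¹] X.D.t γ with hY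
  have hYs : Y = ∑ z ∈ γ.support, γ z • X.D.t z := rfl
  have hcs : (γ.sum fun z p => p • X.D.c z) = Y + ∑ z ∈ γ.support, γ z • (X.D.c z - X.D.t z) := by
    rw [hYs, ← Finset.sum_add_distrib]
    refine Finset.sum_congr rfl fun z _ => ?_
    rw [← smul_add, add_sub_cancel]
  obtain ⟨N, hN1, hN2⟩ : ∃ N, n ≤ N ∧ ∀ z ∈ γ.support, nn z ≤ N :=
    ⟨max n (γ.support.sup nn), le_max_left _ _, fun z hz =>
      (Finset.le_sup (f := nn) hz).trans (le_max_right _ _)⟩
  have hD : X.Lam M N (j - 1) (∑ z ∈ γ.support, γ z • (X.D.c z - X.D.t z)) := by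
    refine Ctx.Lam.sum fun z hz => ?_
    have hz' : ¬ X.Ge (M + 1) z := fun hn => (Finsupp.mem_support_iff.1 hz) (hγn z hn)
    refine Ctx.Lam.smul_le (k' := j) ?_ (hnn z) (hN2 z hz) (by omega)
    rw [hγv z hz']
    exact hb z hz'
  have hYL : X.Lam M N (j - 1) Y := by
    have e : Y = (β.sum fun z p => p • X.D.c z) - (δ.sum fun z p => p • X.D.c z) -
        ∑ z ∈ γ.support, γ z • (X.D.c z - X.D.t z) := by
      rw [hsum, hcs]
      abel
    rw [e]
    exact ((hZ.mono hN1 (by omega)).sub (Ctx.Lam.of_idl hI)).sub hD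
  obtain ⟨l, hl, hYl⟩ := hYL
  have hr : X.D.t.repr Y = γ := X.D.t.repr_linearCombination γ
  have hzero : Y - l = 0 := by
    refine (h3 I W V H X M (Y - l) ?_).1 hYl
    intro w hw
    rw [map_sub, Finsupp.sub_apply, hr] at hw
    by_cases h5 : X.D.t.repr l w = 0
    · intro hg
      exact hw (by rw [hγn w hg, h5, sub_zero])
    · exact ((hl w).2 h5).1
  intro z hz
  have h6 : X.D.t.repr Y z = X.D.t.repr l z := by rw [sub_eq_zero.1 hzero]
  rw [hr, hγv z hz] at h6
  rw [h6]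
  exact (hl z).1

theorem h_f2 (h3 : I_3) (h1 : F_1) : F_2 := by
  intro I W V H _ _ _ X hSA M β
  have key : ∀ (n : ℕ) (k : ℤ), X.Lam M n k (β.sum fun z p => p • X.D.c z) →
      ∀ z, ¬ X.Ge (M + 1) z → DegLE k (β z) := by
    intro n k hZ
    have hJ : ∃ m : ℕ, ∀ z, DegLE (k + m) (β z) := by
      classical
      choose d hd using fun z => exists_degLE (β z)
      refine ⟨β.support.sup fun z => (d z - k).toNat, fun z => ?_⟩
      by_cases hz : z ∈ β.support
      · have h5 := Finset.le_sup (f := fun z => (d z - k).toNat) hz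
        refine (hd z).mono ?_
        have h6 : d z - k ≤ ((d z - k).toNat : ℤ) := Int.self_le_toNat _
        have h7 : ((d z - k).toNat : ℤ) ≤ ((β.support.sup fun z => (d z - k).toNat : ℕ) : ℤ) :=
          Int.ofNat_le.2 h5
        linarith
      · rw [Finsupp.notMem_support_iff.1 hz]
        exact DegLE.zero _
    obtain ⟨m, hm⟩ := hJ
    have hdown : ∀ m : ℕ, (∀ z, ¬ X.Ge (M + 1) z → DegLE (k + m) (β z)) →
        ∀ z, ¬ X.Ge (M + 1) z → DegLE k (β z) := by
      intro m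
      induction m with
      | zero => exact fun h z hz => (h z hz).mono (by simp)
      | succ m ih =>
        intro h
        refine ih fun z hz => ?_
        exact (step h3 h1 hSA M β n k hZ (k + (m + 1 : ℕ)) (by push_cast; omega) h z hz).mono
          (by push_cast; omega)
    exact hdown m fun z _ => hm z
  refine ⟨key, fun hZ z hz => eq_zero_of_degLE fun k => ?_⟩
  exact key 0 k (Ctx.Lam.of_idl hZ) z hz

end Pool.Agent.Helper36.RA
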