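import Pool.Agent.Helper15.RA.GoalsR

/-!
# Project RA, packet RG: finite dihedral groups with unequal parameters are good.
-/

set_option autoImplicit false

open LaurentPolynomial

noncomputable section

namespace Pool.Agent.Helper36.RA

open Pool.Agent.Helper15.RA

theorem EE_left {H : Type} [Ring H] [Algebra ℤ[T;T⁻¹] H] (ci cj : H) (ζ : ℤ[T;T⁻¹]) :
    ∀ k, ∃ Y, EE ci cj (ci * cj - ζ • 1) k = ci * Y := by
  have hZ : ∀ Y : H, (ci * cj - ζ • 1) * (ci * Y) = ci * (cj * (ci * Y) - ζ • Y) := by
    intro Y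
    rw [sub_mul, mul_sub, smul_mul_assoc, one_mul, mul_smul_comm, mul_assoc]
  intro k
  induction k using Nat.strong_induction_on with
  | _ k ih =>
    match k, ih with
    | 0, _ => exact ⟨0, by rw [EE, mul_zero]⟩
    | 1, _ => exact ⟨1, by rw [EE, mul_one]⟩
    | 2, _ => exact ⟨cj, by rw [EE]⟩
    | 3, _ =>
      refine ⟨cj * (ci * 1) - ζ • 1, ?_⟩
      rw [← hZ, mul_one, EE]
    | k + 4, ih =>
      obtain ⟨Y, hY⟩ := ih (k + 2) (by omega)
      obtain ⟨Y', hY'⟩ := ih k (by omega)
      refine ⟨(cj * (ci * Y) - ζ • Y) - Y', ?_⟩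
      rw [EE, hY, hY', hZ, ← mul_sub]

theorem dl_top {a : ℕ} (ha : 0 < a) : (dl a).coeff a = 1 := by
  unfold dl
  rw [AddMonoidAlgebra.coeff_add, Finsupp.add_apply, T_apply, T_apply, if_pos rfl, if_neg (by omega),
    add_zero]

/-- PACKET RA-RG. -/
theorem h_rg (h2 : H_2) (h3 : H_3) (rW : R_W) (rE : R_E) (rT : R_T) (rU : R_U) (rV : R_V) (rP : R_P) :
    R_G := by
  classical
  intro I W H _ _ _ X hab
  have hm := X.hm
  have hMji : X.M X.j X.i = X.M X.i X.j := X.M.symmetric X.j X.i
  have hm1 : X.m = X.M X.i X.j := rfl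
  -- words
  obtain ⟨lenp, top, ex, -, -, -, wL⟩ := rW I W X.M X.cs X.i X.j X.ne X.all (by omega)
  obtain ⟨lenq, -, -, -, -, -, wL'⟩ := rW I W X.M X.cs X.j X.i X.ne.symm (fun k => (X.all k).symm) (by omega)
  obtain ⟨L1, wL2, wL3, wEven⟩ := wL X.L X.wt
  obtain ⟨-, wL2', -, -⟩ := wL' X.L X.wt
  rw [hMji] at lenq wL2'
  rw [← hm1] at lenp lenq wL2 wL2' wL3 wEven
  have hmE : Even X.m := wEven (by
    intro h
    have : X.a = X.b := h
    omega)
  obtain ⟨n, hn⟩ := hmE
  have hn2 : 2 ≤ n := by omega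
  obtain ⟨E1, E2⟩ := rE I W H X hab
  obtain ⟨t1, t2, -, -, t5, t6, t7, t8⟩ := rT I W H X
  obtain ⟨-, u2, u3, u4, u5, u6, u7, u8⟩ := rU I W H X hab
  obtain ⟨v1, v2, v3⟩ := rV I W H X hab
  obtain ⟨p1, p2, p3⟩ := rP I W H X hab
  obtain ⟨b, hb, -, -⟩ := (h3 I W H X.M X.cs X.L X.wt X.D).1
  obtain ⟨-, -, -, c4, -, -, -, c8, -, c10⟩ := h2 I W H X.M X.cs X.L X.wt X.D
  have hxy : ∀ x y, X.h x y = b.repr (X.D.c x * X.D.c y) := by
    intro x y
    rw [X.isH x y]
    have e1 : ((X.h x y).sum fun z p => p • X.D.c z) = b.repr.symm (X.h x y) := by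
      rw [Module.Basis.repr_symm_apply, Finsupp.linearCombination_apply]
      simp only [hb]
    rw [e1, LinearEquiv.apply_symm_apply]
  -- elements
  have hqm : X.q X.m = X.w0 := top.symm
  have lp : ∀ k ≤ X.m, X.cs.length (X.p k) = k := lenp
  have lq : ∀ k ≤ X.m, X.cs.length (X.q k) = k := lenq
  have l1 : X.cs.length 1 = 0 := X.cs.length_one
  have lj : X.cs.length (X.cs.simple X.j) = 1 := X.cs.length_simple X.j
  have le : X.cs.length X.e = X.m - 1 := lp _ (by omega)
  have lw : X.cs.length X.w0 = X.m := lp _ le_rfl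
  have lne : ∀ x y, X.cs.length x ≠ X.cs.length y → x ≠ y := fun x y h h' => h (by rw [h'])
  have j1 : X.cs.simple X.j ≠ 1 := lne _ _ (by omega)
  have e1' : X.e ≠ 1 := lne _ _ (by omega)
  have ej : X.e ≠ X.cs.simple X.j := lne _ _ (by omega)
  have w1 : X.w0 ≠ 1 := lne _ _ (by omega)
  have wj : X.w0 ≠ X.cs.simple X.j := lne _ _ (by omega)
  have we : X.w0 ≠ X.e := lne _ _ (by omega)
  -- weights
  have ha0 : 0 < X.a := by
    have h4 : 0 ≤ X.b := Nat.zero_le _
    omega
  have hb0 : 0 < X.b := X.wt.pos _ j1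
  have LL : ∀ l, 2 * l ≤ X.m → X.L (X.p (2 * l)) = l * (X.a + X.b) := by
    intro l
    induction l with
    | zero =>
      intro _
      have : X.p (2 * 0) = 1 := rfl
      rw [this, L1, zero_mul]
    | succ l ih =>
      intro h
      have e3 := wL2 (2 * l + 1) (by omega)
      have e4 := wL2' (2 * l) (by omega)
      have e5 := ih (by omega)
      have e6 : X.L (X.p (2 * (l + 1))) = X.a + (X.b + X.L (X.p (2 * l))) := by
        change X.L (al X.cs X.i X.j (2 * l + 1 + 1)) = _
        rw [e3, e4]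
        rfl
      rw [e6, e5]
      ring
  have Lw0 : X.L X.w0 = n * (X.a + X.b) := by
    have e3 : X.w0 = X.p (2 * n) := by
      have : X.m = 2 * n := by omega
      unfold Dih.w0
      rw [this]
    rw [e3]
    exact LL n (by omega)
  have hA1 : X.A1 = X.a + (n - 1) * (X.a - X.b) := by
    unfold Dih.A1
    have : X.m / 2 = n := by omega
    rw [this]
  obtain ⟨d, hd⟩ : ∃ d, X.a = X.b + d := ⟨X.a - X.b, by omega⟩
  have hd0 : 0 < d := by omega
  obtain ⟨r, hr⟩ : ∃ r, n = r + 2 := ⟨n - 2, by omega⟩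
  have hA1' : X.A1 = X.a + (r + 1) * d := by
    rw [hA1, hr, hd, show r + 2 - 1 = r + 1 by omega, show X.b + d - X.b = d by omega]
  have aA : X.a < X.A1 := by
    rw [hA1']
    have : 0 < (r + 1) * d := Nat.mul_pos (by omega) hd0
    omega
  have AL : X.A1 < X.L X.w0 := by
    rw [hA1', Lw0, hr, hd]
    nlinarith [Nat.zero_le (r * d), Nat.zero_le (r * X.b), hb0, hd0]
  have aL : X.a < X.L X.w0 := aA.trans AL
  have bL : X.b < X.L X.w0 := hab.trans aL
  -- all elements
  have Lp : ∀ k, k < X.m → X.L (X.p k) < X.L X.w0 := by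
    have key : ∀ d k, k + (d + 1) = X.m → X.L (X.p k) < X.L X.w0 := by
      intro d
      induction d with
      | zero =>
        intro k hk
        have := (wL3 k (by omega)).1
        have e : X.w0 = X.p (k + 1) := by
          have e' : k + 1 = X.m := by omega
          rw [e']; rfl
        rw [e]
        exact this
      | succ d ih =>
        intro k hk
        exact (wL3 k (by omega)).1.trans (ih (k + 1) (by omega))
    intro k hk
    exact key (X.m - k - 1) k (by omega)
  have Lq : ∀ k, k < X.m → X.L (X.q k) < X.L X.w0 := by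
    intro k hk
    have h4 := (wL3 k (by omega)).2
    rcases Nat.lt_or_ge (k + 1) X.m with h5 | h5
    · exact h4.trans (Lp (k + 1) h5)
    · have e : X.w0 = X.p (k + 1) := by
        have : k + 1 = X.m := by omega
        rw [this]; rfl
      rw [e]
      exact h4
  have Lw : ∀ w, w ≠ X.w0 → X.L w < X.L X.w0 := by
    intro w hw
    obtain ⟨k, hk, h4⟩ := ex w
    rcases h4 with rfl | rfl
    · exact Lp k (lt_of_le_of_ne hk (fun h => hw (by rw [h]; rfl)))
    · exact Lq k (lt_of_le_of_ne hk (fun h => hw (by rw [h]; exact hqm)))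
  have cases : ∀ w, w = 1 ∨ w = X.cs.simple X.j ∨ w = X.e ∨ w = X.w0 ∨ X.Mid w := by
    intro w
    unfold Dih.Mid
    tauto
  -- products with 1
  have h111 : X.h 1 1 1 = 1 := by
    rw [hxy, c8, mul_one, ← c8, ← hb, Module.Basis.repr_self, Finsupp.single_apply, if_pos rfl]
  -- the function a
  let af : W → ℕ := fun w => if w = 1 then 0 else if w = X.cs.simple X.j then X.b else
    if w = X.e then X.A1 else if w = X.w0 then X.L X.w0 else X.a
  have af1 : af 1 = 0 := if_pos rfl
  have afj : af (X.cs.simple X.j) = X.b := by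
    change (if X.cs.simple X.j = 1 then 0 else if X.cs.simple X.j = X.cs.simple X.j then X.b else _) = _
    rw [if_neg j1, if_pos rfl]
  have afe : af X.e = X.A1 := by
    change (if X.e = 1 then 0 else if X.e = X.cs.simple X.j then X.b else
      if X.e = X.e then X.A1 else _) = _
    rw [if_neg e1', if_neg ej, if_pos rfl]
  have af0 : af X.w0 = X.L X.w0 := by
    change (if X.w0 = 1 then 0 else if X.w0 = X.cs.simple X.j then X.b else
      if X.w0 = X.e then X.A1 else if X.w0 = X.w0 then X.L X.w0 else X.a) = _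
    rw [if_neg w1, if_neg wj, if_neg we, if_pos rfl]
  have afm : ∀ w, X.Mid w → af w = X.a := by
    rintro w ⟨m1, m2, m3, m4⟩
    change (if w = 1 then 0 else if w = X.cs.simple X.j then X.b else
      if w = X.e then X.A1 else if w = X.w0 then X.L X.w0 else X.a) = _
    rw [if_neg m1, if_neg m2, if_neg m3, if_neg m4]
  have af_le : ∀ w, af w ≤ X.L X.w0 := by
    intro w
    rcases cases w with rfl | rfl | rfl | rfl | h
    · rw [af1]; exact Nat.zero_le _
    · rw [afj]; exact bL.le
    · rw [afe]; exact AL.le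
    · rw [af0]
    · rw [afm w h]; exact aL.le
  have up' : ∀ z, z ≠ X.w0 → ∀ x y, DegLE (af z) (X.h x y z) := by
    intro z hz x y
    rcases cases z with rfl | rfl | rfl | rfl | h
    · rw [af1]
      by_cases e2 : X.h x y 1 = 0
      · rw [e2]; exact DegLE.zero _
      · obtain ⟨rfl, rfl⟩ := u5 x y e2
        exact u6
    · rw [afj]; exact (u8 x y).1
    · rw [afe]; exact v1 x y
    · exact absurd rfl hz
    · rw [afm z h]; exact (u7 x y z h).1
  have up0 := t8 af (fun z hz => ⟨by have := af_le z; have := Lw z hz; omega, up' z hz⟩)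
  have up : ∀ z x y, DegLE (af z) (X.h x y z) := by
    intro z x y
    by_cases e1 : z = X.w0
    · rw [e1, af0]
      exact (up0 x y).1
    · exact up' z e1 x y
  -- exclusions
  have notMid1 : ¬ X.Mid 1 := fun h => h.1 rfl
  have notMidj : ¬ X.Mid (X.cs.simple X.j) := fun h => h.2.1 rfl
  have notMide : ¬ X.Mid X.e := fun h => h.2.2.1 rfl
  have notMidw : ¬ X.Mid X.w0 := fun h => h.2.2.2 rfl
  have atj : ∀ x y, X.h x y (X.cs.simple X.j) ≠ 0 → (x = 1 ∨ x = X.cs.simple X.j) ∧
      (y = 1 ∨ y = X.cs.simple X.j) := by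
    intro x y hh
    constructor
    · rcases cases x with h | h | h | h | h
      · exact Or.inl h
      · exact Or.inr h
      · exact absurd (u3 x y _ hh (Or.inl h)) (by rintro (h | h); exacts [ej h.symm, wj h.symm])
      · exact absurd (u2 x y _ hh (Or.inl h)) wj.symm
      · exact absurd (u4 x y _ hh (Or.inl h))
          (by rintro (h | h | h); exacts [notMidj h, ej h.symm, wj h.symm])
    · rcases cases y with h | h | h | h | h
      · exact Or.inl h
      · exact Or.inr h
      · exact absurd (u3 x y _ hh (Or.inr h)) (by rintro (h | h); exacts [ej h.symm, wj h.symm])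
      · exact absurd (u2 x y _ hh (Or.inr h)) wj.symm
      · exact absurd (u4 x y _ hh (Or.inr h))
          (by rintro (h | h | h); exacts [notMidj h, ej h.symm, wj h.symm])
  have atm : ∀ x y z, X.Mid z → X.h x y z ≠ 0 → (x = 1 ∨ x = X.cs.simple X.j ∨ X.Mid x) ∧
      (y = 1 ∨ y = X.cs.simple X.j ∨ X.Mid y) := by
    intro x y z hz hh
    constructor
    · rcases cases x with h | h | h | h | h
      · exact Or.inl h
      · exact Or.inr (Or.inl h)
      · exact absurd (u3 x y _ hh (Or.inl h)) (by rintro (h | h); exacts [hz.2.2.1 h, hz.2.2.2 h])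
      · exact absurd (u2 x y _ hh (Or.inl h)) hz.2.2.2
      · exact Or.inr (Or.inr h)
    · rcases cases y with h | h | h | h | h
      · exact Or.inl h
      · exact Or.inr (Or.inl h)
      · exact absurd (u3 x y _ hh (Or.inr h)) (by rintro (h | h); exacts [hz.2.2.1 h, hz.2.2.2 h])
      · exact absurd (u2 x y _ hh (Or.inr h)) hz.2.2.2
      · exact Or.inr (Or.inr h)
  -- lower bounds of the middle elements
  have Ei : ∀ k, X.ci * X.E k = dl X.a • X.E k := by
    intro k
    obtain ⟨Y, hY⟩ := EE_left X.ci X.cj X.zeta k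
    have hY' : X.E k = X.ci * Y := hY
    rw [hY', ← mul_assoc, show X.ci * X.ci = dl X.a • X.ci from c10 X.i, smul_mul_assoc]
  have desc : ∀ z, X.Mid z → ∃ x y, X.D.c x * X.D.c y = dl X.a • X.D.c z := by
    intro z hz
    obtain ⟨k, hk, h4⟩ := ex z
    rcases Nat.eq_zero_or_pos k with rfl | hk0
    · exact absurd (by rcases h4 with h | h <;> exact h) hz.1
    rcases h4 with rfl | rfl
    · refine ⟨X.cs.simple X.i, X.p k, ?_⟩
      have := Ei k
      rw [E1 k hk0 hk] at this
      exact this
    · have hk1 : k ≠ 1 := by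
        rintro rfl
        exact hz.2.1 (mul_one _)
      have hkm : k ≠ X.m := by
        rintro rfl
        exact hz.2.2.2 hqm
      obtain ⟨l, rfl⟩ : ∃ l, k = l + 1 := ⟨k - 1, by omega⟩
      refine ⟨X.q (1 + 1), X.p l, ?_⟩
      rw [← E2 1 le_rfl (by omega), ← E1 l (by omega) (by omega)]
      have hE1 : X.E 1 = X.ci := by
        unfold Dih.E
        rw [EE]
      have h5 := E2 l (by omega) hk
      change _ = dl X.a • X.D.c (X.q (l + 1))
      rw [← h5, hE1, mul_assoc, Ei, mul_smul_comm]
  refine ⟨af, X.isH, ?_, ?_, ?_, ?_⟩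
  · -- IsA
    intro z
    refine ⟨up z, ?_⟩
    rcases cases z with rfl | rfl | rfl | rfl | hz
    · refine ⟨1, 1, fun h => ?_⟩
      rw [af1, h111] at h
      have h4 := h 0 (by simp)
      rw [← T_zero, T_apply, if_pos rfl] at h4
      exact one_ne_zero h4
    · refine ⟨X.cs.simple X.j, X.cs.simple X.j, fun h => ?_⟩
      rw [afj, hxy, c10 X.j, map_smul, ← hb, Module.Basis.repr_self, Finsupp.smul_apply,
        Finsupp.single_apply, if_pos rfl, smul_eq_mul, mul_one] at h
      have h4 := h X.b (by omega)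
      have h5 := dl_top hb0
      change (dl (X.L (X.cs.simple X.j))).coeff X.b = 1 at h5
      rw [h5] at h4
      exact one_ne_zero h4
    · refine ⟨X.e, X.e, fun h => ?_⟩
      rw [afe] at h
      exact v3 (h _ (by omega))
    · refine ⟨X.w0, X.w0, fun h => ?_⟩
      rw [af0] at h
      exact t7 (h _ (by omega))
    · obtain ⟨x, y, hu⟩ := desc z hz
      refine ⟨x, y, fun h => ?_⟩
      rw [afm z hz, hxy, hu, map_smul, ← hb z, Module.Basis.repr_self, Finsupp.smul_apply,
        Finsupp.single_apply, if_pos rfl, smul_eq_mul, mul_one] at h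
      have h4 := h X.a (by omega)
      rw [dl_top ha0] at h4
      exact one_ne_zero h4
  · -- P1
    intro z
    rcases cases z with rfl | rfl | rfl | rfl | hz
    · rw [af1, c4]
      exact DegLE.one (by simp)
    · rw [afj]; exact p2
    · rw [afe]; exact p3
    · rw [af0, t6, L1]
      exact DegLE.T_le (by simp)
    · rw [afm z hz]; exact p1 z hz
  · -- P4
    intro x y z hh
    rcases cases z with rfl | rfl | rfl | rfl | hz
    · obtain ⟨rfl, rfl⟩ := u5 x y hh
      exact ⟨le_rfl, le_rfl⟩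
    · have key : ∀ w, w = 1 ∨ w = X.cs.simple X.j → af w ≤ X.b := by
        rintro w (rfl | rfl)
        · rw [af1]; exact Nat.zero_le _
        · rw [afj]
      rw [afj]
      exact ⟨key x (atj x y hh).1, key y (atj x y hh).2⟩
    · have key : ∀ w, w ≠ X.w0 → af w ≤ X.A1 := by
        intro w hw
        rcases cases w with rfl | rfl | rfl | rfl | h
        · rw [af1]; exact Nat.zero_le _
        · rw [afj]; exact (hab.trans aA).le
        · rw [afe]
        · exact absurd rfl hw
        · rw [afm w h]; exact aA.le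
      rw [afe]
      exact ⟨key x fun h => we (u2 x y _ hh (Or.inl h)).symm, key y fun h => we (u2 x y _ hh (Or.inr h)).symm⟩
    · rw [af0]
      exact ⟨af_le x, af_le y⟩
    · have key : ∀ w, w = 1 ∨ w = X.cs.simple X.j ∨ X.Mid w → af w ≤ X.a := by
        rintro w (rfl | rfl | h)
        · rw [af1]; exact Nat.zero_le _
        · rw [afj]; exact hab.le
        · rw [afm w h]
      rw [afm z hz]
      exact ⟨key x (atm x y z hz hh).1, key y (atm x y z hz hh).2⟩
  · -- P8
    intro x y z hh
    unfold gam at hh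
    have h0 : X.h x y z ≠ 0 := by
      intro h
      rw [h] at hh
      exact hh rfl
    rcases cases z with rfl | rfl | rfl | rfl | hz
    · obtain ⟨rfl, rfl⟩ := u5 x y h0
      exact ⟨rfl, rfl⟩
    · rw [afj] at hh
      obtain ⟨k1, k2⟩ := atj x y h0
      have n1 : ¬ (x = 1 ∨ y = 1) := fun h => hh ((u8 x y).2 h _ (by omega))
      push Not at n1
      rw [k1.resolve_left n1.1, k2.resolve_left n1.2]
      exact ⟨rfl, rfl⟩
    · rw [afe] at hh
      by_cases e3 : x ≠ X.e ∨ y ≠ X.e
      · exact absurd (v2 x y e3 _ (by omega)) hh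
      · push Not at e3
        rw [e3.1, e3.2]
        exact ⟨rfl, rfl⟩
    · rw [af0] at hh
      by_cases e3 : x ≠ X.w0 ∨ y ≠ X.w0
      · exact absurd ((up0 x y).2 e3 _ (by omega)) hh
      · push Not at e3
        rw [e3.1, e3.2]
        exact ⟨rfl, rfl⟩
    · rw [afm z hz] at hh ⊢
      obtain ⟨k1, k2⟩ := atm x y z hz h0
      have n1 : ¬ (x = 1 ∨ x = X.cs.simple X.j ∨ y = 1 ∨ y = X.cs.simple X.j) :=
        fun h => hh ((u7 x y z hz).2 h _ (by omega))
      push Not at n1
      obtain ⟨n1, n2, n3, n4⟩ := n1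
      exact ⟨afm x ((k1.resolve_left n1).resolve_left n2), afm y ((k2.resolve_left n3).resolve_left n4)⟩

end Pool.Agent.Helper36.RA
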